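import Pool.Agent.W901.FC.LawE

/-!
# `NP = coNP` and the prediction of answers: how many help bits give how much advantage

This is about the time bound `t = id` of the question, that is, `NP = coNP`, which is equivalent to
the closure under complement of `NTIME(Pol t)` for all time bounds `t ≥ id` which can be computed in
time `Pol t`.

Polynomial time is Mathlib's `Turing.TM2ComputableInPolyTime`, for functions on bit strings.

Let a total nondeterministic polynomial-time algorithm (every input has at least one output, possibly
many) make predictions for the answers to the `m` questions whether `y` is in `A`, `y` in a list of
`m` strings; it may abstain on some of them. How much can, for all outputs, the number of right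
predictions differ from the number of wrong ones, for every list, if the algorithm gets in addition
`k` bits of help, which may depend on the list in any way?

`NHelpOn (Short ε) k t A`: the difference is at least `t` for all outputs on all lists of `m ≥ m₀`
strings of length at most `m ^ ε`; `NHelpOn Every k t A`: for all lists of `m ≥ m₀` strings;
`HelpAll k t A`: for all lists of `m ≥ m₀` strings, by a deterministic algorithm.

There is a constant `C` such that for all `k`, `t` with `t ^ 2 ≥ C * 2 ^ k` or
`t ^ 2 ≥ (k + 1) * 2 ^ (k + 1)` and all `ε > 0`

`NP = coNP` iff `NHelpOn (Short ε) k t A` for some `NP`-hard set `A` iff
`NHelpOn Every k t A` for all `A` in `NP`,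

while `HelpAll k t A` holds for all sets `A` whatsoever if `(t - 1) ^ 2 < 2 ^ k`. So without help
(`k = 0`) the difference `1` is free and the difference `2` gives `NP = coNP`; with one bit of help
the difference `2` is free and `3` gives `NP = coNP`.

Proof. Let `L` be in `NP`; we want certificates for `x ∉ L`. The outputs of the nondeterministic
algorithm which are used are guessed, with their witnesses, and kept in a table. Single-valued `NP`
functions `x ↦ w` have polynomially long candidate lists (with the table): the prefixes of `w` are
found in a search tree, where a prefix `v` survives only if for all seeds of a hash function the
`K = 2 ^ k` vectors of predictions for the label questions (whether the bit `i` of the label of the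
prefix of `w` is one) are compatible with the label of `v`. The labels are all sign vectors with at
most `K` changes of sign, up to `K` further exceptional entries: polynomially many. By the theorem of
Borsuk and Ulam (in the form of Hobby and Rice) there is a step function with `K` jumps which is
orthogonal to all `K` vectors, and by Spencer's theorem (linear discrepancy) its at most `K` fractional
entries can be rounded such that all `K` scalar products are smaller than `C * √ K`. So for each seed
one label is incompatible; pairwise independent hashing of more than `2 * F ^ 2` prefixes to `F` labels
hits the incompatible label for some seed. So few survive. The vector of the answers to parallel `NP`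
questions is the value of a single-valued `NP` function once the number of positive answers is known,
so it has a short list of candidates, and the level algorithm of `Pool.Agent.H579R6` (the theorem
behind `MP_8f56c4_lc.ParallelQueriesCollapse`), with the tables, searches for a witness of `x ∈ L`: if
the tables are right and the search fails, then `x` is not in `L`, and the tables are the certificate.

Free advantage: the rows of a Hadamard matrix, by Parseval's equation.
-/

set_option autoImplicit false

namespace Pool.Agent.Results.MP_fa4772_lc.HelpBitsLaw

open Pool.Agent.NPC Pool.Agent.W901.AT Pool.Agent.W901.FH

theorem result : ∃ C : ℕ, ∀ (k t : ℕ) (ε : ℝ),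
    (0 < ε → C * 2 ^ k ≤ t ^ 2 ∨ (k + 1) * 2 ^ (k + 1) ≤ t ^ 2 → List.TFAE
      [∀ L : Set (List Bool), InNP L → InNP Lᶜ,
        ∃ A : Set (List Bool), NPHard A ∧ NHelpOn (Short ε) k t A,
        ∀ A : Set (List Bool), InNP A → NHelpOn Every k t A]) ∧
    ((t - 1) ^ 2 < 2 ^ k → ∀ A : Set (List Bool), HelpAll k t A) :=
  help_law_conp

end Pool.Agent.Results.MP_fa4772_lc.HelpBitsLaw
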