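import Pool.Agent.W107.TapePar
import Pool.Agent.W107.Asym

/-!
# Verifying unsatisfiability with an unlimited work tape

Nondeterministic and non-uniform machines which have random access to the clauses of a 3-CNF
formula, a control with `2 ^ S` states and a `D`-dimensional work tape of unlimited size cannot
verify unsatisfiability in linear time: they need `Ω(m log (m / (S ^ D g)))` steps.
-/

set_option autoImplicit false

namespace Pool.Agent.Results.MP_fa4772_lc.UnlimitedTape

open Pool.Agent.W107 Pool.Agent.H774R2.QSAT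

/-- For every dimension `D ≥ 1` there is `c > 0` such that the following holds. Let `M` be a
nondeterministic, non-uniform machine with random access to the `m` clauses of a 3-CNF formula in
`m` variables (it reads one clause per step), with `2 ^ S` states, where `S ≥ log₂ m`, and with a
`D`-dimensional work tape of unlimited size with `2 ^ g` symbols. If `M` accepts within `T` steps
exactly the unsatisfiable formulas, and if `S ^ D * g ≤ c * m`, then
`c * m * log (m / (S ^ D * g)) ≤ T`. -/
theorem result (D : ℕ) (hD : 1 ≤ D) : ∃ c : ℝ, 0 < c ∧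
    ∀ (m S g T : ℕ) (Q Γ : Type) [Fintype Q] [Fintype Γ] (M : TapeMachine D m (Clause m) Q Γ),
      Fintype.card Q ≤ 2 ^ S → Fintype.card Γ ≤ 2 ^ g → Nat.log 2 m ≤ S → 1 ≤ g →
      (S : ℝ) ^ D * g ≤ c * m → (∀ φ, M.Accepts T φ ↔ ¬ Sat φ) →
      c * m * Real.log (m / ((S : ℝ) ^ D * g)) ≤ T := by
  obtain ⟨c, hc, h⟩ := asym_of (50 * D + 49) (D * (2 * D + 212) + 212) (by omega)
  refine ⟨c, hc, ?_⟩
  intro m S g T Q Γ _ _ M hQ hΓ hS hg hR hdec
  rcases Nat.eq_zero_or_pos S with rfl | hS1
  · have : ((0 : ℕ) : ℝ) ^ D = 0 := by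
      rw [Nat.cast_zero]
      exact zero_pow (by omega)
    rw [this]
    simp
  have hR1 : (1 : ℝ) ≤ (S : ℝ) ^ D * g := by
    have : 1 ≤ S ^ D * g := Nat.mul_pos (pow_pos hS1 D) hg
    exact_mod_cast this
  refine h m T _ hR1 hR fun K hK hm => ?_
  by_contra hcon
  push Not at hcon
  refine tape_contra hD M hK hQ hΓ hS hS1 hg ?_ hcon hdec
  have : ((S ^ D * g * 2 ^ ((50 * D + 49) * K + (D * (2 * D + 212) + 212)) : ℕ) : ℝ) ≤ m := by
    push_cast
    exact hm
  exact_mod_cast this

end Pool.Agent.Results.MP_fa4772_lc.UnlimitedTape
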